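import Pool.Agent.H66.GLB.BT1

/-!
# Board glb_modules, module BT: the inequality of Bessel
-/

set_option autoImplicit false

open NumberField NumberField.InfinitePlace NumberField.Units
  NumberField.Units.dirichletUnitTheorem MeasureTheory Set Filter Complex
open scoped nonZeroDivisors ENNReal

namespace Pool.Agent.H66.GLB

open Pool.Agent.H25.HK Pool.Agent.H23.LB Pool.Agent.H23.LC
open Pool.Agent.H28.RC (Rep ft idl)

section NF

variable {K : Type} [Field K] [NumberField K]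

/-- the conjugates of the vectors -/
noncomputable def av {f : Ideal (𝓞 K)} (D : Sys K f) (χ : HG K f) (t : ℝ) (c : D.ι) (r : K)
    (p : logSpace K × ℝ × (InfinitePlace K → ℝ)) : ℂ :=
  cg χ (D.M c) r * (ec K χ.ν p.1 * cexp ((t : ℂ) * (p.2.1 : ℂ) * I) * ek χ.k p.2.2)

variable (K) in
/-- the domain -/
noncomputable def Sq (τ₁ : ℝ) : Set (logSpace K × ℝ × (InfinitePlace K → ℝ)) :=
  open scoped Classical in Fd K ×ˢ Icc τ₁ (τ₁ + 4) ×ˢ An K

theorem meas_An : MeasurableSet (An K) := MeasurableSet.univ_pi fun _ => measurableSet_Icc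

theorem meas_Sq (τ₁ : ℝ) : MeasurableSet (Sq K τ₁) := by
  classical
  obtain ⟨hFd, -⟩ := Pool.Agent.H66.HK.fd K
  exact hFd.prod (measurableSet_Icc.prod meas_An)

theorem vol_An : volume (An K) ≠ ∞ := by
  have h : IsCompact (An K) := isCompact_univ_pi fun _ => isCompact_Icc
  exact h.measure_lt_top.ne

open scoped Classical in
theorem vol_Sq (τ₁ : ℝ) : volume (Sq K τ₁) ≠ ∞ := by
  obtain ⟨-, -, -, hFd, -⟩ := Pool.Agent.H66.HK.fd K
  unfold Sq
  rw [Measure.volume_eq_prod, Measure.prod_prod, Measure.volume_eq_prod, Measure.prod_prod]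
  exact ENNReal.mul_ne_top hFd.ne (ENNReal.mul_ne_top measure_Icc_lt_top.ne vol_An)

theorem meas_av (hPU : T_PU) {f : Ideal (𝓞 K)} (D : Sys K f) (χ : HG K f) (t : ℝ) (c : D.ι)
    (r : K) : Measurable (av D χ t c r) := by
  have h1 : Measurable (ec K χ.ν) := ((hPU K).2.2.2.2.1 χ.ν).1.measurable
  have h2 := meas_ek χ.k
  unfold av
  refine measurable_const.mul ((?_ : Measurable _).mul ?_)
  · refine (h1.comp measurable_fst).mul ?_
    fun_prop
  · exact h2.comp (measurable_snd.comp measurable_snd)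

theorem norm_av (hPU : T_PU) {f : Ideal (𝓞 K)} (D : Sys K f) (χ : HG K f) (t : ℝ) (c : D.ι)
    (r : K) (p : logSpace K × ℝ × (InfinitePlace K → ℝ)) :
    ‖av D χ t c r p‖ = ‖cg χ (D.M c) r‖ := by
  unfold av
  have h : ‖cexp ((t : ℂ) * (p.2.1 : ℂ) * I)‖ = 1 := by
    rw [← ofReal_mul]
    exact Complex.norm_exp_ofReal_mul_I _
  rw [norm_mul, norm_mul, norm_mul, ((hPU K).2.2.2.2.1 χ.ν).2, norm_ek, h]
  ring

open scoped Classical in
theorem inner_av {f : Ideal (𝓞 K)} (D : Sys K f) (χ χ' : HG K f) (t t' τ₁ : ℝ) :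
    ∑ c, ∑ r ∈ D.X c, ∫ p in Sq K τ₁, av D χ t c r p * (starRingEnd ℂ) (av D χ' t' c r p) =
    (∑ c, ∑ r ∈ D.X c, cg χ (D.M c) r * (starRingEnd ℂ) (cg χ' (D.M c) r) *
      ∫ z in Fd K, ec K χ.ν z * (starRingEnd ℂ) (ec K χ'.ν z)) *
    ((∫ τ in Icc τ₁ (τ₁ + 4), cexp ((t : ℂ) * τ * I) *
      (starRingEnd ℂ) (cexp ((t' : ℂ) * τ * I))) *
      ∫ θ in An K, ek χ.k θ * (starRingEnd ℂ) (ek χ'.k θ)) := by
  rw [Finset.sum_mul]
  refine Finset.sum_congr rfl fun c _ => ?_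
  rw [Finset.sum_mul]
  refine Finset.sum_congr rfl fun r _ => ?_
  unfold Sq
  have h1 : ∀ p : logSpace K × ℝ × (InfinitePlace K → ℝ),
      av D χ t c r p * (starRingEnd ℂ) (av D χ' t' c r p) =
      (cg χ (D.M c) r * (starRingEnd ℂ) (cg χ' (D.M c) r)) *
        ((ec K χ.ν p.1 * (starRingEnd ℂ) (ec K χ'.ν p.1)) *
        ((cexp ((t : ℂ) * p.2.1 * I) * (starRingEnd ℂ) (cexp ((t' : ℂ) * p.2.1 * I))) *
          (ek χ.k p.2.2 * (starRingEnd ℂ) (ek χ'.k p.2.2)))) := by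
    intro p
    unfold av
    simp only [map_mul]
    ring
  rw [integral_congr_ae (ae_of_all _ h1), integral_const_mul,
    mul_assoc (cg χ (D.M c) r * (starRingEnd ℂ) (cg χ' (D.M c) r))]
  congr 1
  rw [Measure.volume_eq_prod]
  rw [setIntegral_prod_mul (μ := (volume : Measure (logSpace K)))
    (ν := (volume : Measure (ℝ × (InfinitePlace K → ℝ))))
    (fun z => ec K χ.ν z * (starRingEnd ℂ) (ec K χ'.ν z))
    (fun q : ℝ × (InfinitePlace K → ℝ) =>
      (cexp ((t : ℂ) * q.1 * I) * (starRingEnd ℂ) (cexp ((t' : ℂ) * q.1 * I))) *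
          (ek χ.k q.2 * (starRingEnd ℂ) (ek χ'.k q.2)))]
  congr 1
  rw [Measure.volume_eq_prod]
  rw [setIntegral_prod_mul (μ := (volume : Measure ℝ))
    (ν := (volume : Measure (InfinitePlace K → ℝ)))
    (fun τ : ℝ => cexp ((t : ℂ) * τ * I) * (starRingEnd ℂ) (cexp ((t' : ℂ) * τ * I)))
    (fun θ => ek χ.k θ * (starRingEnd ℂ) (ek χ'.k θ))]

open scoped Classical in
/-- the inequality for one `t` -/
theorem one (hOG : U_OG) (hPU : T_PU) {f : Ideal (𝓞 K)} (hf : f ≠ ⊥) (D : Sys K f)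
    (Y : Finset (HG K f)) (τ₁ : ℝ) (J : Finset ℤ)
    (F : D.ι → K → logSpace K × ℝ × (InfinitePlace K → ℝ) → ℂ)
    (hFm : ∀ c r, Measurable (F c r))
    (hFb : ∃ C : ℝ, ∀ c r p, p.1 ∈ Fd K → ‖F c r p‖ ≤ C) (t : ℝ) :
    ∑ χ ∈ Y, ∑ j ∈ J, ‖∑ c, ∑ r ∈ D.X c, ∫ p in Sq K τ₁,
      av D χ (t + j * (Real.pi / 2)) c r p * F c r p‖ ^ 2 ≤
    (4 * (2 * Real.pi) ^ np K * (classNumber K * regulator K * Phi K f)) *
      ∑ c, ∑ r ∈ D.X c, ∫ p in Sq K τ₁, ‖F c r p‖ ^ 2 := by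
  obtain ⟨C, hC⟩ := hFb
  have hpi := Real.pi_pos
  let e : Y × J → D.ι → K → BM (Sq K τ₁) := fun i c r =>
    ⟨fun p => (starRingEnd ℂ) (av D i.1.1 (t + (i.2.1 : ℝ) * (Real.pi / 2)) c r p),
      continuous_conj.measurable.comp (meas_av hPU D _ _ c r),
      ‖cg i.1.1 (D.M c) r‖, fun p _ => by
        rw [RCLike.norm_conj, norm_av hPU]⟩
  let x : D.ι → K → BM (Sq K τ₁) := fun c r => ⟨F c r, hFm c r, C, fun p hp => hC c r p hp.1⟩
  have hPhi : (0 : ℝ) < Phi K f := by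
    have : Finite (𝓞 K ⧸ f) := Ideal.finiteQuotientOfFreeOfNeBot f hf
    unfold Phi
    exact_mod_cast Nat.card_pos
  have hcl : (0 : ℝ) < classNumber K := by
    have : 0 < classNumber K := Fintype.card_pos
    exact_mod_cast this
  have hreg : 0 < regulator K := regulator_pos K
  let cr := core2 (meas_Sq (K := K) τ₁) (vol_Sq (K := K) τ₁) (κ := K) D.X
  have hin : ∀ i i' : Y × J, cr.inner (e i) (e i') =
      (∑ c, ∑ r ∈ D.X c, cg i.1.1 (D.M c) r * (starRingEnd ℂ) (cg i'.1.1 (D.M c) r) *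
        ∫ z in Fd K, ec K i.1.1.ν z * (starRingEnd ℂ) (ec K i'.1.1.ν z)) *
      (((if i.2.1 = i'.2.1 then 4 else 0 : ℝ) : ℂ) *
        ((if i.1.1.k = i'.1.1.k then (2 * Real.pi) ^ np K else 0 : ℝ) : ℂ)) := by
    intro i i'
    rw [← int_ek _ _ i.1.1.real_k i'.1.1.real_k]
    have h := int_tau τ₁ t i.2.1 i'.2.1
    rw [apply_ite (fun r : ℝ => (r : ℂ))]
    push_cast at h ⊢
    rw [← h]
    have h2 := inner_av D i.1.1 i'.1.1 (t + (i.2.1 : ℝ) * (Real.pi / 2))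
      (t + (i'.2.1 : ℝ) * (Real.pi / 2)) τ₁
    push_cast at h2
    rw [← h2]
    refine Finset.sum_congr rfl fun c _ => Finset.sum_congr rfl fun r _ => ?_
    refine integral_congr_ae (ae_of_all _ fun p => ?_)
    change (starRingEnd ℂ) ((starRingEnd ℂ) (av D i.1.1 (t + (i.2.1 : ℝ) * (Real.pi / 2)) c r p)) *
      (starRingEnd ℂ) (av D i'.1.1 (t + (i'.2.1 : ℝ) * (Real.pi / 2)) c r p) = _
    rw [Complex.conj_conj]
  have key := Pool.Agent.H94.GLA.bessel_abs cr e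
    (4 * (2 * Real.pi) ^ np K * (classNumber K * regulator K * Phi K f)) (by positivity) ?_ ?_ x
  · have h1 : ∀ i : Y × J, cr.inner (e i) x =
        ∑ c, ∑ r ∈ D.X c, ∫ p in Sq K τ₁,
          av D i.1.1 (t + (i.2.1 : ℝ) * (Real.pi / 2)) c r p * F c r p := by
      intro i
      refine Finset.sum_congr rfl fun c _ => Finset.sum_congr rfl fun r hr => ?_
      refine integral_congr_ae (ae_of_all _ fun p => ?_)
      change (starRingEnd ℂ) ((starRingEnd ℂ)
        (av D i.1.1 (t + (i.2.1 : ℝ) * (Real.pi / 2)) c r p)) * F c r p = _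
      rw [Complex.conj_conj]
    have h2 : (cr.inner x x).re = ∑ c, ∑ r ∈ D.X c, ∫ p in Sq K τ₁, ‖F c r p‖ ^ 2 := by
      have h3 : cr.inner x x =
          ((∑ c, ∑ r ∈ D.X c, ∫ p in Sq K τ₁, ‖F c r p‖ ^ 2 : ℝ) : ℂ) := by
        rw [ofReal_sum]
        refine Finset.sum_congr rfl fun c _ => ?_
        rw [ofReal_sum]
        refine Finset.sum_congr rfl fun r hr => ?_
        rw [← integral_complex_ofReal]
        refine integral_congr_ae (ae_of_all _ fun p => ?_)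
        change (starRingEnd ℂ) (F c r p) * F c r p = _
        rw [Complex.conj_mul']
        push_cast
        rfl
      rw [h3, ofReal_re]
    rw [h2] at key
    refine le_trans (le_of_eq ?_) key
    rw [Fintype.sum_prod_type, ← Finset.sum_coe_sort Y]
    refine Finset.sum_congr rfl fun χ _ => ?_
    rw [← Finset.sum_coe_sort J]
    exact Finset.sum_congr rfl fun j _ => by rw [h1]
  · intro i i' hne
    rw [hin]
    by_cases hj : i.2.1 = i'.2.1
    · by_cases hk : i.1.1.k = i'.1.1.k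
      · have hχ : i.1.1 ≠ i'.1.1 := by
          intro h
          exact hne (Prod.ext (Subtype.ext h) (Subtype.ext hj))
        rw [(hOG K f hf D i.1.1 i'.1.1 hk).1 hχ, zero_mul]
      · rw [if_neg hk, ofReal_zero, mul_zero, mul_zero]
    · rw [if_neg hj, ofReal_zero, zero_mul, mul_zero]
  · intro i
    rw [hin, if_pos rfl, if_pos rfl]
    have h5 := (hOG K f hf D i.1.1 i.1.1 rfl).2
    have h6 : ∫ z in Fd K, ec K i.1.1.ν z * (starRingEnd ℂ) (ec K i.1.1.ν z) =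
        ((regulator K : ℝ) : ℂ) := by
      have h7 : ∀ z : logSpace K, ec K i.1.1.ν z * (starRingEnd ℂ) (ec K i.1.1.ν z) = 1 := by
        intro z
        rw [Complex.mul_conj', ((hPU K).2.2.2.2.1 i.1.1.ν).2 z]
        simp
      rw [integral_congr_ae (ae_of_all _ h7), integral_const, measureReal_restrict_apply_univ,
        Pool.Agent.H94.GLA.vol_Fd, real_smul, mul_one]
    rw [h6]
    have h8 : (∑ c, ∑ r ∈ D.X c, cg i.1.1 (D.M c) r *
        (starRingEnd ℂ) (cg i.1.1 (D.M c) r) * ((regulator K : ℝ) : ℂ)) =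
        (((∑ c, ∑ r ∈ D.X c, ‖cg i.1.1 (D.M c) r‖ ^ 2) * regulator K : ℝ) : ℂ) := by
      rw [Finset.sum_mul, ofReal_sum]
      refine Finset.sum_congr rfl fun c _ => ?_
      rw [Finset.sum_mul, ofReal_sum]
      refine Finset.sum_congr rfl fun r _ => ?_
      rw [Complex.mul_conj']
      push_cast
      rfl
    rw [h8, h5]
    push_cast
    ring

end NF

theorem pf_BT (hOG : U_OG) (hPU : T_PU) : U_BT := by
  classical
  intro K _ _ f hf D Y T τ₁ F hT hFm hFb hFs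
  have hpi := Real.pi_pos
  obtain ⟨J, hJ'⟩ : ∃ J : Finset ℤ, ∀ g : ℝ → ℝ≥0∞, ∫⁻ t in Icc (-T) T, g t ≤
      ∑ j ∈ J, ∫⁻ t in Icc 0 (Real.pi / 2), g (t + j * (Real.pi / 2)) := lint_cover T
  -- the integrals over the larger domain
  have hA : ∀ (χ : HG K f) (t : ℝ), ∑ c, ∑ r ∈ D.X c, cg χ (D.M c) r *
      ∫ p in Fd K ×ˢ (univ : Set ℝ) ×ˢ An K, ec K χ.ν p.1 * cexp (t * p.2.1 * I) *
        (ek χ.k p.2.2 * F c r p) =
      ∑ c, ∑ r ∈ D.X c, ∫ p in Sq K τ₁, av D χ t c r p * F c r p := by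
    intro χ t
    refine Finset.sum_congr rfl fun c _ => Finset.sum_congr rfl fun r _ => ?_
    rw [setIntegral_eq_of_subset_of_forall_sdiff_eq_zero (s := Sq K τ₁)]
    · rw [← integral_const_mul]
      refine integral_congr_ae (ae_of_all _ fun p => ?_)
      unfold av
      ring
    · obtain ⟨hFd, -⟩ := Pool.Agent.H66.HK.fd K
      exact hFd.prod (MeasurableSet.univ.prod meas_An)
    · exact prod_mono le_rfl (prod_mono (subset_univ _) le_rfl)
    · rintro p ⟨⟨hp1, -, hp3⟩, hp⟩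
      have h0 : F c r p = 0 := by
        by_contra h
        exact hp ⟨hp1, hFs c r p h, hp3⟩
      rw [h0]
      ring
  simp only [hA]
  set G : HG K f → ℝ → ℝ≥0∞ := fun χ t => ENNReal.ofReal
    (‖∑ c, ∑ r ∈ D.X c, ∫ p in Sq K τ₁, av D χ t c r p * F c r p‖ ^ 2) with hG
  have hFi : ∀ c r, IntegrableOn (fun p => ‖F c r p‖ ^ 2) (Sq K τ₁) := by
    intro c r
    obtain ⟨C, hC⟩ := hFb
    refine Measure.integrableOn_of_bounded (M := C ^ 2) (vol_Sq τ₁)
      ((hFm c r).norm.pow_const 2).aestronglyMeasurable ?_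
    refine (ae_restrict_iff' (meas_Sq τ₁)).2 (ae_of_all _ fun p hp => ?_)
    rw [Real.norm_eq_abs, abs_of_nonneg (by positivity)]
    exact pow_le_pow_left₀ (norm_nonneg _) (hC c r p hp.1) 2
  have h1 : ∀ t : ℝ, ∑ χ ∈ Y, ∑ j ∈ J, G χ (t + j * (Real.pi / 2)) ≤
      ENNReal.ofReal (4 * (2 * Real.pi) ^ np K * (classNumber K * regulator K * Phi K f)) *
        ∑ c, ∑ r ∈ D.X c, ∫⁻ p in Fd K ×ˢ (univ : Set ℝ) ×ˢ An K,
          ENNReal.ofReal (‖F c r p‖ ^ 2) := by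
    intro t
    have h2 := one hOG hPU hf D Y τ₁ J F hFm hFb t
    have h3 : ∑ χ ∈ Y, ∑ j ∈ J, G χ (t + j * (Real.pi / 2)) =
        ENNReal.ofReal (∑ χ ∈ Y, ∑ j ∈ J, ‖∑ c, ∑ r ∈ D.X c, ∫ p in Sq K τ₁,
          av D χ (t + j * (Real.pi / 2)) c r p * F c r p‖ ^ 2) := by
      rw [ENNReal.ofReal_sum_of_nonneg (fun χ _ => Finset.sum_nonneg fun j _ => by positivity)]
      refine Finset.sum_congr rfl fun χ _ => ?_
      rw [ENNReal.ofReal_sum_of_nonneg (fun j _ => by positivity)]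
    rw [h3]
    refine (ENNReal.ofReal_le_ofReal h2).trans ?_
    rw [ENNReal.ofReal_mul (by have := regulator_pos K; positivity)]
    refine mul_le_mul_right ?_ _
    rw [ENNReal.ofReal_sum_of_nonneg (fun c _ => Finset.sum_nonneg fun r _ =>
      integral_nonneg fun p => sq_nonneg _)]
    refine Finset.sum_le_sum fun c _ => ?_
    rw [ENNReal.ofReal_sum_of_nonneg (fun r _ => integral_nonneg fun p => sq_nonneg _)]
    refine Finset.sum_le_sum fun r _ => ?_
    rw [ofReal_integral_eq_lintegral_ofReal (hFi c r) (ae_of_all _ fun p => sq_nonneg _)]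
    exact lintegral_mono_set (prod_mono le_rfl (prod_mono (subset_univ _) le_rfl))
  calc ∑ χ ∈ Y, ∫⁻ t in Icc (-T) T, G χ t
      ≤ ∑ χ ∈ Y, ∑ j ∈ J, ∫⁻ t in Icc 0 (Real.pi / 2), G χ (t + j * (Real.pi / 2)) :=
        Finset.sum_le_sum fun χ _ => hJ' _
    _ ≤ ∑ χ ∈ Y, ∫⁻ t in Icc 0 (Real.pi / 2), ∑ j ∈ J, G χ (t + j * (Real.pi / 2)) :=
        Finset.sum_le_sum fun χ _ => sum_lint _ J _
    _ ≤ ∫⁻ t in Icc 0 (Real.pi / 2), ∑ χ ∈ Y, ∑ j ∈ J, G χ (t + j * (Real.pi / 2)) :=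
        sum_lint _ Y _
    _ ≤ ∫⁻ _ in Icc 0 (Real.pi / 2),
      ENNReal.ofReal (4 * (2 * Real.pi) ^ np K * (classNumber K * regulator K * Phi K f)) *
        ∑ c, ∑ r ∈ D.X c, ∫⁻ p in Fd K ×ˢ (univ : Set ℝ) ×ˢ An K,
          ENNReal.ofReal (‖F c r p‖ ^ 2) := lintegral_mono h1
    _ = _ := by
      rw [lintegral_const, Measure.restrict_apply_univ, Real.volume_Icc, sub_zero]
      rw [mul_comm, ← mul_assoc, ← ENNReal.ofReal_mul (by positivity)]
      congr 2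
      ring

end Pool.Agent.H66.GLB
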