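import Pool.Agent.H23.LC.Targets
import Pool.Agent.H94.GLA.BE

/-!
# Board glb_modules, module BT, part 1: the angular functions and the abstract form
-/

set_option autoImplicit false

open NumberField NumberField.InfinitePlace NumberField.Units
  NumberField.Units.dirichletUnitTheorem MeasureTheory Set Filter Complex
open scoped nonZeroDivisors ENNReal

namespace Pool.Agent.H66.GLB

open Pool.Agent.H25.HK Pool.Agent.H23.LB Pool.Agent.H23.LC
open Pool.Agent.H28.RC (Rep ft idl)

/-! ### the space of bounded measurable functions -/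

section Abstract

variable {P : Type*} [MeasurableSpace P]

/-- measurable functions which are bounded on `S` -/
def BM (S : Set P) : Submodule ℂ (P → ℂ) where
  carrier := {g | Measurable g ∧ ∃ C : ℝ, ∀ p ∈ S, ‖g p‖ ≤ C}
  add_mem' := by
    rintro g h ⟨hg, C, hC⟩ ⟨hh, D, hD⟩
    refine ⟨hg.add hh, C + D, fun p hp => ?_⟩
    exact (norm_add_le _ _).trans (add_le_add (hC p hp) (hD p hp))
  zero_mem' := ⟨measurable_const, 0, fun p _ => by simp⟩
  smul_mem' := by
    rintro a g ⟨hg, C, hC⟩
    refine ⟨hg.const_smul a, ‖a‖ * C, fun p hp => ?_⟩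
    rw [Pi.smul_apply, norm_smul]
    exact mul_le_mul_of_nonneg_left (hC p hp) (norm_nonneg _)

theorem int_BM {μ : Measure P} {S : Set P} (hS : MeasurableSet S) (hμ : μ S ≠ ∞)
    (g h : BM S) : IntegrableOn (fun p => (starRingEnd ℂ) (g.1 p) * h.1 p) S μ := by
  obtain ⟨g, hg, C, hC⟩ := g
  obtain ⟨h, hh, D, hD⟩ := h
  have hm : Measurable (fun p => (starRingEnd ℂ) (g p) * h p) :=
    (continuous_conj.measurable.comp hg).mul hh
  refine Measure.integrableOn_of_bounded (M := C * D) hμ hm.aestronglyMeasurable ?_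
  refine (ae_restrict_iff' hS).2 (ae_of_all _ fun p hp => ?_)
  rw [norm_mul, RCLike.norm_conj]
  exact mul_le_mul (hC p hp) (hD p hp) (norm_nonneg _) ((norm_nonneg _).trans (hC p hp))

/-- the form -/
@[instance_reducible]
noncomputable def core2 {μ : Measure P} {S : Set P} (hS : MeasurableSet S) (hμ : μ S ≠ ∞)
    {ι κ : Type*} [Fintype ι] (X : ι → Finset κ) :
    PreInnerProductSpace.Core ℂ (ι → κ → BM S) where
  inner F G := ∑ c, ∑ r ∈ X c, ∫ p in S, (starRingEnd ℂ) ((F c r).1 p) * (G c r).1 p ∂μ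
  conj_inner_symm F G := by
    simp only [map_sum]
    refine Finset.sum_congr rfl fun c _ => Finset.sum_congr rfl fun r _ => ?_
    rw [← integral_conj]
    refine integral_congr_ae (ae_of_all _ fun z => ?_)
    simp only [map_mul, Complex.conj_conj]
    ring
  re_inner_nonneg F := by
    rw [map_sum]
    refine Finset.sum_nonneg fun c _ => ?_
    rw [map_sum]
    refine Finset.sum_nonneg fun r _ => ?_
    have h : ∀ z : P, (starRingEnd ℂ) ((F c r).1 z) * (F c r).1 z =
        ((‖(F c r).1 z‖ ^ 2 : ℝ) : ℂ) := by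
      intro z
      rw [Complex.conj_mul']
      push_cast
      rfl
    rw [integral_congr_ae (ae_of_all _ h), integral_complex_ofReal]
    change 0 ≤ (((∫ z in S, ‖(F c r).1 z‖ ^ 2 ∂μ : ℝ) : ℂ)).re
    rw [ofReal_re]
    exact integral_nonneg fun z => by positivity
  add_left F G H := by
    rw [← Finset.sum_add_distrib]
    refine Finset.sum_congr rfl fun c _ => ?_
    rw [← Finset.sum_add_distrib]
    refine Finset.sum_congr rfl fun r _ => ?_
    rw [← integral_add (int_BM hS hμ _ _) (int_BM hS hμ _ _)]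
    refine integral_congr_ae (ae_of_all _ fun z => ?_)
    simp only [Pi.add_apply, Submodule.coe_add, map_add]
    ring
  smul_left F G a := by
    rw [Finset.mul_sum]
    refine Finset.sum_congr rfl fun c _ => ?_
    rw [Finset.mul_sum]
    refine Finset.sum_congr rfl fun r _ => ?_
    rw [← integral_const_mul]
    refine integral_congr_ae (ae_of_all _ fun z => ?_)
    simp only [Pi.smul_apply, Submodule.coe_smul, smul_eq_mul, map_mul]
    ring

end Abstract

/-! ### lower integrals -/

/-- superadditivity of the lower integral for finite sums -/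
theorem sum_lint {α ι : Type*} [MeasurableSpace α] (μ : Measure α) (s : Finset ι)
    (f : ι → α → ℝ≥0∞) : ∑ i ∈ s, ∫⁻ a, f i a ∂μ ≤ ∫⁻ a, ∑ i ∈ s, f i a ∂μ := by
  classical
  induction s using Finset.induction_on with
  | empty => simp
  | insert i s hi ih =>
    rw [Finset.sum_insert hi]
    refine (add_le_add le_rfl ih).trans ?_
    refine (le_lintegral_add _ _).trans (lintegral_mono fun a => ?_)
    simp only [Finset.sum_insert hi, Pi.add_apply]
    exact le_rfl

/-- the cover of `[-T, T]` by translates of `[0, π/2]` -/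
theorem lint_cover (T : ℝ) : ∃ J : Finset ℤ, ∀ g : ℝ → ℝ≥0∞,
    ∫⁻ t in Icc (-T) T, g t ≤
      ∑ j ∈ J, ∫⁻ t in Icc 0 (Real.pi / 2), g (t + j * (Real.pi / 2)) := by
  have hpi := Real.pi_pos
  obtain ⟨N, hN⟩ := exists_nat_ge (T / (Real.pi / 2) + 1)
  refine ⟨Finset.Icc (-(N : ℤ)) N, fun g => ?_⟩
  have h1 : ∀ j : ℤ, ∫⁻ t in Icc 0 (Real.pi / 2), g (t + j * (Real.pi / 2)) =
      ∫⁻ t in Icc (j * (Real.pi / 2)) (Real.pi / 2 + j * (Real.pi / 2)), g t := by
    intro j
    have h := (measurePreserving_add_right (volume : Measure ℝ)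
      ((j : ℝ) * (Real.pi / 2))).setLIntegral_comp_preimage_emb
      (MeasurableEquiv.addRight ((j : ℝ) * (Real.pi / 2))).measurableEmbedding g
      (Icc (j * (Real.pi / 2)) (Real.pi / 2 + j * (Real.pi / 2)))
    rw [← h]
    congr 2
    ext t
    simp only [mem_Icc, mem_preimage]
    constructor
    · rintro ⟨h1, h2⟩; constructor <;> linarith
    · rintro ⟨h1, h2⟩; constructor <;> linarith
  rw [Finset.sum_congr rfl fun j _ => h1 j]
  have hsub : Icc (-T) T ⊆ ⋃ j : (Finset.Icc (-(N : ℤ)) N : Finset ℤ),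
      Icc ((j : ℤ) * (Real.pi / 2)) (Real.pi / 2 + (j : ℤ) * (Real.pi / 2)) := by
    rintro t ⟨ht1, ht2⟩
    have hp2 : 0 < Real.pi / 2 := by positivity
    set m := ⌊t / (Real.pi / 2)⌋ with hm
    have hm1 : (m : ℝ) * (Real.pi / 2) ≤ t := by
      rw [← le_div_iff₀ hp2]; exact Int.floor_le _
    have hm2 : t < ((m : ℝ) + 1) * (Real.pi / 2) := by
      rw [← div_lt_iff₀ hp2]; exact Int.lt_floor_add_one _
    have hTN : T ≤ ((N : ℝ) - 1) * (Real.pi / 2) := by
      rw [← div_le_iff₀ hp2]; linarith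
    refine mem_iUnion.2 ⟨⟨m, Finset.mem_Icc.2 ⟨?_, ?_⟩⟩, ?_⟩
    · have h5 : (-((N : ℝ) - 1)) * (Real.pi / 2) < ((m : ℝ) + 1) * (Real.pi / 2) := by
        linarith
      have h6 : (-((N : ℝ) - 1)) < ((m : ℝ) + 1) := lt_of_mul_lt_mul_right h5 hp2.le
      have h7 : ((-(N : ℤ) : ℤ) : ℝ) < (m : ℝ) := by push_cast; linarith
      exact (Int.cast_lt.1 h7).le
    · have h5 : (m : ℝ) * (Real.pi / 2) ≤ ((N : ℝ) - 1) * (Real.pi / 2) := by linarith
      have h6 : (m : ℝ) ≤ (N : ℝ) - 1 := le_of_mul_le_mul_right h5 hp2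
      have h7 : (m : ℝ) ≤ ((N : ℤ) : ℝ) := by push_cast; linarith
      exact Int.cast_le.1 h7
    · refine ⟨hm1, ?_⟩
      change t ≤ Real.pi / 2 + (m : ℝ) * (Real.pi / 2)
      linarith
  refine (lintegral_mono_set hsub).trans ?_
  refine (lintegral_iUnion_le _ _).trans ?_
  rw [tsum_fintype]
  rw [Finset.sum_coe_sort (Finset.Icc (-(N : ℤ)) N)
    (fun j => ∫⁻ t in Icc ((j : ℝ) * (Real.pi / 2)) (Real.pi / 2 + (j : ℝ) * (Real.pi / 2)), g t)]

/-! ### the angular functions -/

section NF

variable {K : Type} [Field K] [NumberField K]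

theorem norm_an (v : InfinitePlace K) (θ : ℝ) : ‖an v θ‖ = 1 := by
  classical
  unfold an
  split_ifs with h1 h2
  · simp
  · simp
  · exact Complex.norm_exp_ofReal_mul_I θ

theorem an_ne (v : InfinitePlace K) (θ : ℝ) : an v θ ≠ 0 := by
  intro h
  have := norm_an v θ
  rw [h] at this
  simp at this

theorem meas_an (v : InfinitePlace K) : Measurable (an v) := by
  classical
  unfold an
  by_cases h : v.IsReal
  · simp only [h, if_true]
    exact Measurable.ite measurableSet_Iio measurable_const measurable_const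
  · simp only [h, if_false]
    fun_prop

theorem norm_ek (k : InfinitePlace K → ℤ) (θ : InfinitePlace K → ℝ) : ‖ek k θ‖ = 1 := by
  unfold ek
  rw [norm_prod]
  refine Finset.prod_eq_one fun v _ => ?_
  rw [norm_zpow, norm_an, one_zpow]

theorem meas_ek (k : InfinitePlace K → ℤ) : Measurable (ek k) := by
  unfold ek
  refine Finset.measurable_fun_prod _ fun v _ => ?_
  exact ((meas_an v).comp (measurable_pi_apply v)).pow_const _

/-- the integral over one angle -/
theorem int_an (v : InfinitePlace K) (k k' : ℤ) (hr : v.IsReal → k = 0 ∨ k = 1)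
    (hr' : v.IsReal → k' = 0 ∨ k' = 1) :
    ∫ θ in Icc 0 (2 * Real.pi), an v θ ^ (-k) * (starRingEnd ℂ) (an v θ ^ (-k')) =
      if k = k' then 2 * Real.pi else 0 := by
  classical
  have hpi := Real.pi_pos
  have hconj : ∀ θ : ℝ, (starRingEnd ℂ) (an v θ) = (an v θ)⁻¹ := by
    intro θ
    rw [Complex.inv_def, Complex.normSq_eq_norm_sq, norm_an]
    simp
  have h1 : ∀ θ : ℝ, an v θ ^ (-k) * (starRingEnd ℂ) (an v θ ^ (-k')) =
      an v θ ^ (k' - k) := by
    intro θ
    rw [map_zpow₀, hconj, inv_zpow', neg_neg, ← zpow_add₀ (an_ne v θ)]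
    congr 1
    ring
  rw [integral_congr_ae (ae_of_all _ h1)]
  by_cases hk : k = k'
  · subst hk
    rw [if_pos rfl]
    simp only [sub_self, zpow_zero, integral_const, measureReal_restrict_apply_univ,
      real_smul, mul_one]
    rw [Real.volume_real_Icc_of_le (by positivity)]
    push_cast
    ring
  rw [if_neg hk]
  rw [integral_Icc_eq_integral_Ioc, ← intervalIntegral.integral_of_le (by positivity)]
  by_cases hv : v.IsReal
  · have h2 : ∀ θ : ℝ, an v θ ^ (k' - k) = if θ < Real.pi then 1 else -1 := by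
      intro θ
      have h3 : k' - k = 1 ∨ k' - k = -1 := by
        rcases hr hv with h | h <;> rcases hr' hv with h' | h' <;> omega
      have h4 : an v θ = if θ < Real.pi then 1 else -1 := by
        unfold an; rw [if_pos hv]
      rw [h4]
      rcases h3 with h3 | h3 <;> rw [h3] <;> split_ifs <;> norm_num
    rw [intervalIntegral.integral_congr (g := fun θ : ℝ => if θ < Real.pi then (1 : ℂ) else -1)
      (fun θ _ => h2 θ)]
    have hii : ∀ a b : ℝ, IntervalIntegrable
        (fun θ : ℝ => if θ < Real.pi then (1 : ℂ) else -1) volume a b := by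
      intro a b
      rw [intervalIntegrable_iff]
      refine Measure.integrableOn_of_bounded (M := 1) (by rw [uIoc]; exact measure_Ioc_lt_top.ne)
        ?_ ?_
      · exact (Measurable.ite measurableSet_Iio measurable_const
          measurable_const).aestronglyMeasurable
      · exact ae_of_all _ fun θ => by split_ifs <;> simp
    rw [← intervalIntegral.integral_add_adjacent_intervals (hii 0 Real.pi) (hii _ _)]
    have e1 : ∫ θ in (0 : ℝ)..Real.pi, (if θ < Real.pi then (1 : ℂ) else -1) = Real.pi := by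
      rw [intervalIntegral.integral_of_le hpi.le, ← integral_Ico_eq_integral_Ioc]
      rw [setIntegral_congr_fun measurableSet_Ico (g := fun _ : ℝ => (1 : ℂ))]
      · simp [measureReal_restrict_apply_univ, hpi.le]
      · intro θ hθ
        simp only
        rw [if_pos hθ.2]
    have e2 : ∫ θ in Real.pi..(2 * Real.pi), (if θ < Real.pi then (1 : ℂ) else -1) =
        -Real.pi := by
      rw [intervalIntegral.integral_of_le (by linarith)]
      rw [setIntegral_congr_fun measurableSet_Ioc (g := fun _ : ℝ => (-1 : ℂ))]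
      · rw [integral_const, measureReal_restrict_apply_univ,
          Real.volume_real_Ioc_of_le (by linarith), real_smul]
        push_cast
        ring
      · intro θ hθ
        simp only
        rw [if_neg (not_lt.2 hθ.1.le)]
    rw [e1, e2]
    simp
  · have h2 : ∀ θ : ℝ, an v θ ^ (k' - k) = cexp (((k' - k : ℤ) : ℂ) * I * θ) := by
      intro θ
      have h4 : an v θ = cexp (θ * I) := by
        unfold an; rw [if_neg hv]
      rw [h4, ← Complex.exp_int_mul]
      congr 1
      ring
    rw [intervalIntegral.integral_congr (g := fun θ : ℝ => cexp (((k' - k : ℤ) : ℂ) * I * θ))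
      (fun θ _ => h2 θ)]
    have hne : ((k' - k : ℤ) : ℂ) * I ≠ 0 := by
      refine mul_ne_zero ?_ I_ne_zero
      exact_mod_cast sub_ne_zero.2 (Ne.symm hk)
    rw [integral_exp_mul_complex hne]
    have h5 : cexp (((k' - k : ℤ) : ℂ) * I * ((2 * Real.pi : ℝ) : ℂ)) = 1 := by
      rw [Complex.exp_eq_one_iff]
      exact ⟨k' - k, by push_cast; ring⟩
    rw [h5]
    simp

/-- the integral over all angles -/
theorem int_ek (k k' : InfinitePlace K → ℤ) (hr : ∀ v : InfinitePlace K, v.IsReal → k v = 0 ∨ k v = 1)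
    (hr' : ∀ v : InfinitePlace K, v.IsReal → k' v = 0 ∨ k' v = 1) :
    ∫ θ in An K, ek k θ * (starRingEnd ℂ) (ek k' θ) =
      if k = k' then (2 * Real.pi) ^ np K else 0 := by
  classical
  have h1 : (volume : Measure (InfinitePlace K → ℝ)).restrict (An K) =
      Measure.pi (fun _ => (volume : Measure ℝ).restrict (Icc 0 (2 * Real.pi))) := by
    unfold An
    rw [volume_pi, Measure.restrict_pi_pi]
  have h2 : ∀ θ : InfinitePlace K → ℝ, ek k θ * (starRingEnd ℂ) (ek k' θ) =
      ∏ v, (an v (θ v) ^ (-k v) * (starRingEnd ℂ) (an v (θ v) ^ (-k' v))) := by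
    intro θ
    unfold ek
    rw [map_prod, ← Finset.prod_mul_distrib]
  rw [integral_congr_ae (ae_of_all _ h2), h1]
  rw [integral_fintype_prod_eq_prod (𝕜 := ℂ)
    (fun (v : InfinitePlace K) (θ : ℝ) =>
      (an v θ ^ (-k v) * (starRingEnd ℂ) (an v θ ^ (-k' v)) : ℂ))]
  rw [Finset.prod_congr rfl fun v _ => int_an v (k v) (k' v) (hr v) (hr' v)]
  by_cases hk : k = k'
  · subst hk
    rw [if_pos rfl]
    simp only [if_true, Finset.prod_const, Finset.card_univ]
    unfold np
    rw [← card_eq_nrRealPlaces_add_nrComplexPlaces]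
    push_cast
    rfl
  · rw [if_neg hk]
    obtain ⟨v, hv⟩ := Function.ne_iff.1 hk
    rw [ofReal_zero]
    exact Finset.prod_eq_zero (Finset.mem_univ v) (by rw [if_neg hv, ofReal_zero])

/-- the integral over `τ` -/
theorem int_tau (τ₁ t : ℝ) (j j' : ℤ) :
    ∫ τ in Icc τ₁ (τ₁ + 4), cexp (((t + j * (Real.pi / 2) : ℝ) : ℂ) * τ * I) *
      (starRingEnd ℂ) (cexp (((t + j' * (Real.pi / 2) : ℝ) : ℂ) * τ * I)) =
      if j = j' then 4 else 0 := by
  have h1 : ∀ τ : ℝ, cexp (((t + j * (Real.pi / 2) : ℝ) : ℂ) * τ * I) *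
      (starRingEnd ℂ) (cexp (((t + j' * (Real.pi / 2) : ℝ) : ℂ) * τ * I)) =
      cexp ((((j - j' : ℤ) : ℂ) * (Real.pi / 2) * I) * τ) := by
    intro τ
    rw [← Complex.exp_conj, ← Complex.exp_add]
    congr 1
    simp only [map_mul, conj_I, conj_ofReal]
    push_cast
    ring
  rw [integral_congr_ae (ae_of_all _ h1)]
  by_cases hj : j = j'
  · subst hj
    rw [if_pos rfl]
    simp only [sub_self, Int.cast_zero, zero_mul, Complex.exp_zero, integral_const,
      measureReal_restrict_apply_univ, real_smul, mul_one]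
    rw [Real.volume_real_Icc_of_le (by linarith)]
    push_cast
    ring
  · rw [if_neg hj]
    rw [integral_Icc_eq_integral_Ioc, ← intervalIntegral.integral_of_le (by linarith)]
    have hne : ((j - j' : ℤ) : ℂ) * (Real.pi / 2) * I ≠ 0 := by
      refine mul_ne_zero (mul_ne_zero ?_ ?_) I_ne_zero
      · exact_mod_cast sub_ne_zero.2 hj
      · exact_mod_cast (by positivity : (0:ℝ) < Real.pi / 2).ne'
    rw [integral_exp_mul_complex hne]
    have h5 : cexp (((j - j' : ℤ) : ℂ) * (Real.pi / 2) * I * ((τ₁ + 4 : ℝ) : ℂ)) =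
        cexp (((j - j' : ℤ) : ℂ) * (Real.pi / 2) * I * (τ₁ : ℂ)) := by
      rw [Complex.exp_eq_exp_iff_exists_int]
      exact ⟨j - j', by push_cast; ring⟩
    rw [h5]
    simp

end NF

end Pool.Agent.H66.GLB
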